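import Pool.Agent.Lib.MP_8cf91f_an.BanMain

set_option autoImplicit false

namespace Pool.Agent.Results.MP_8cf91f_an.JordanIso

universe u v

theorem sr_eq {A : Type u} [NormedRing A] [NormedAlgebra ℂ A] [CompleteSpace A] (x : A) :
    spectralRadius ℂ x = ENNReal.ofReal (sSup ((fun z : ℂ => ‖z‖) '' spectrum ℂ x)) := by
  rcases (spectrum ℂ x).eq_empty_or_nonempty with h | h
  · simp [spectralRadius, h]
  · obtain ⟨k, hk, hk'⟩ := spectrum.exists_nnnorm_eq_spectralRadius_of_nonempty h
    have hg : IsGreatest ((fun z : ℂ => ‖z‖) '' spectrum ℂ x) ‖k‖ := by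
      refine ⟨⟨k, hk, rfl⟩, ?_⟩
      rintro _ ⟨z, hz, rfl⟩
      have h1 : (‖z‖₊ : ENNReal) ≤ spectralRadius ℂ x :=
        le_iSup₂ (f := fun k (_ : k ∈ spectrum ℂ x) => (‖k‖₊ : ENNReal)) z hz
      rw [← hk'] at h1
      exact_mod_cast h1
    rw [hg.csSup_eq, ← hk', ofReal_norm]
    rfl

/-- A unital surjective linear map from a unital C*-algebra onto a unital complex Banach algebra
(in particular onto a unital C*-algebra) that preserves the largest modulus of a spectral value
is a Jordan isomorphism. -/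
theorem result {A : Type u} {B : Type v} [CStarAlgebra A]
    [NormedRing B] [NormedAlgebra ℂ B] [CompleteSpace B] (T : A →ₗ[ℂ] B)
    (hsurj : Function.Surjective T) (hone : T 1 = 1)
    (hr : ∀ x : A, sSup ((fun z : ℂ => ‖z‖) '' spectrum ℂ (T x))
      = sSup ((fun z : ℂ => ‖z‖) '' spectrum ℂ x)) :
    Function.Bijective T ∧ (∀ x : A, T (x ^ 2) = T x ^ 2) ∧
      ∀ x y : A, T (x * y + y * x) = T x * T y + T y * T x := by
  have hT : ∀ x, spectralRadius ℂ (T x) = spectralRadius ℂ x := fun x => by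
    rw [sr_eq, sr_eq, hr]
  obtain ⟨hinj, hsq⟩ := Pool.Agent.Lib.MP_8cf91f_an.Ban.main T hsurj hone hT
  refine ⟨⟨hinj, hsurj⟩, fun x => by rw [sq, sq, hsq], fun x y => ?_⟩
  have e := hsq (x + y)
  simp only [add_mul, mul_add, map_add, hsq] at e
  rw [map_add]
  linear_combination (norm := noncomm_ring) e

/-- The case of two C*-algebras, which is the question as posed. -/
theorem cstar {A : Type u} {B : Type v} [CStarAlgebra A] [CStarAlgebra B] (T : A →ₗ[ℂ] B)
    (hsurj : Function.Surjective T) (hone : T 1 = 1)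
    (hr : ∀ x : A, sSup ((fun z : ℂ => ‖z‖) '' spectrum ℂ (T x))
      = sSup ((fun z : ℂ => ‖z‖) '' spectrum ℂ x)) :
    Function.Bijective T ∧ (∀ x : A, T (x ^ 2) = T x ^ 2) ∧
      ∀ x y : A, T (x * y + y * x) = T x * T y + T y * T x :=
  result T hsurj hone hr

end Pool.Agent.Results.MP_8cf91f_an.JordanIso
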